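import Pool.Agent.R516.Core
import Pool.Agent.R516.Win

/-!
An upper bound of the right order, with the constant `18 / 5`, for the primes in every interval
containing a given integer, for all integers outside a small set.
-/

set_option autoImplicit false

namespace Pool.Agent.Results.MP_31d0eb_nt.AlmostAllIntervals

open Classical in
/-- For every `δ > 0` there are `κ > 0` and `N₀` such that for all `N ≥ N₀` and all real
`1 ≤ H ≤ N ^ κ`, all but at most `N (log N) ^ 20 / H` integers `n ≤ N` are such that every interval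
`(a, b]` with `a < n ≤ b ≤ N` of length `b - a ≥ H` contains at most
`(18 / 5 + δ) (b - a) / log N` primes. -/
theorem result : ∀ δ : ℝ, 0 < δ → ∃ κ : ℝ, 0 < κ ∧ ∃ N₀ : ℕ, ∀ N : ℕ, N₀ ≤ N →
    ∀ H : ℝ, 1 ≤ H → H ≤ (N : ℝ) ^ κ →
      (((Finset.Icc 1 N).filter (fun n : ℕ => ∃ a b : ℕ, a < n ∧ n ≤ b ∧ b ≤ N ∧
        H ≤ (b : ℝ) - a ∧ (18 / 5 + δ) * ((b : ℝ) - a) / Real.log N <
          (((Finset.Ioc a b).filter Nat.Prime).card : ℝ))).card : ℝ) ≤
        N * (Real.log N) ^ 20 / H := by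
  intro δ hδ
  obtain ⟨κ, hκ, N₀, h⟩ := Pool.Agent.R516.winU Pool.Agent.R516.core δ hδ
  refine ⟨κ, hκ, N₀, fun N hN H hH1 hH2 => ?_⟩
  refine le_trans (le_of_eq ?_) (h N hN H hH1 hH2)
  congr 1
  apply congrArg Finset.card
  apply Finset.filter_congr
  intro n _
  unfold Pool.Agent.R516.Hi Pool.Agent.R516.pcn
  constructor
  · rintro ⟨a, b, h1, h2, h3, h4, h5⟩
    refine ⟨a, b, h1, h2, h3, h4, ?_⟩
    rwa [div_mul_eq_mul_div]
  · rintro ⟨a, b, h1, h2, h3, h4, h5⟩
    refine ⟨a, b, h1, h2, h3, h4, ?_⟩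
    rwa [div_mul_eq_mul_div] at h5

end Pool.Agent.Results.MP_31d0eb_nt.AlmostAllIntervals
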