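import Pool.Agent.R516.Core
import Pool.Agent.R516.TwoC

/-!
Around most primes, every interval has the right order of magnitude of primes, with explicit
constants.
-/

set_option autoImplicit false

namespace Pool.Agent.Results.MP_31d0eb_nt.MostPrimesTwoSided

open Filter Topology

open Classical in
/-- For all `μ, δ > 0` and all large `N`, at least `(1 - 2 μ - δ) π(N)` primes `p ≤ N` are such that
every interval `(a, b]` with `a < p ≤ b ≤ N` contains at least `μ (b - a) / log N` primes and, if its
length is at least `(log N) ^ 22`, at most `(18 / 5 + δ) (b - a) / log N` primes. -/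
theorem result : ∀ μ δ : ℝ, 0 < μ → 0 < δ → ∀ᶠ N : ℕ in atTop,
    (1 - 2 * μ - δ) * (Nat.primeCounting N : ℝ) ≤
      (((Finset.Icc 1 N).filter (fun p : ℕ => p.Prime ∧ ∀ a b : ℕ, a < p → p ≤ b → b ≤ N →
        μ * ((b : ℝ) - a) / Real.log N ≤ (((Finset.Ioc a b).filter Nat.Prime).card : ℝ) ∧
        ((Real.log N) ^ 22 ≤ (b : ℝ) - a →
          (((Finset.Ioc a b).filter Nat.Prime).card : ℝ) ≤
            (18 / 5 + δ) * ((b : ℝ) - a) / Real.log N))).card : ℝ) := by
  intro μ δ hμ hδ
  exact Pool.Agent.R516.thmC (Pool.Agent.R516.winU Pool.Agent.R516.core) μ δ hμ hδ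

end Pool.Agent.Results.MP_31d0eb_nt.MostPrimesTwoSided
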