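import Mathlib
import Pool.Agent.R463.NarLin

set_option autoImplicit false

/-!
# Where the number of primes of short intervals deviates, along narrow progressions

For EVERY function `H` and EVERY set `S` of reals: almost all primes `p`, in all intervals of length at least
`X ^ θ` and up to `ε` times the expected number `Y / log X`, for which `π(p, H(p)) log p / H(p)` is in `S` are
terms of `l`-term arithmetic progressions of such primes with difference at most a power of `log X` which does not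
depend on `H` and `S`. The same for arbitrary sets of primes.
-/

namespace Pool.Agent.Results.MP_31d0eb_nt.NarrowProgressions

open Finset Filter

/-- The integers all prime factors of which are larger than `m ^ (1 / r)`. -/
def RoughAt (r : ℕ) : Set ℕ := {m | ∀ p : ℕ, p.Prime → p ∣ m → (m : ℝ) ^ (1 / (r : ℝ)) < (p : ℝ)}

/-- `m` is a term of an `l`-term arithmetic progression with difference at most `D`, all terms of which
are elements of `A` in the interval `(a, b]`. -/
def InProgression (A : Set ℕ) (l : ℕ) (D : ℝ) (a b m : ℕ) : Prop :=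
  ∃ u d : ℕ, 1 ≤ d ∧ (d : ℝ) ≤ D ∧ (∀ i < l, u + i * d ∈ A ∧ a < u + i * d ∧ u + i * d ≤ b) ∧
    ∃ i < l, m = u + i * d

lemma InProgression.mono {A : Set ℕ} {l : ℕ} {D D' : ℝ} {a b m : ℕ} (h : InProgression A l D a b m)
    (hD : D ≤ D') : InProgression A l D' a b m := by
  obtain ⟨u, d, h1, h2, h3⟩ := h
  exact ⟨u, d, h1, h2.trans hD, h3⟩

/-- all primes are in `RoughAt r` -/
lemma prime_mem (r : ℕ) (hr : 2 ≤ r) (q : ℕ) (hq : q.Prime) : q ∈ RoughAt r := by
  intro p hp hd
  have h1 : p = q := (Nat.prime_dvd_prime_iff_eq hp hq).1 hd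
  have h2 : (1 : ℝ) < q := by exact_mod_cast hq.one_lt
  have hr2 : (2 : ℝ) ≤ r := by exact_mod_cast hr
  rw [h1]
  have h5 : (1 / (r : ℝ)) < 1 := by
    rw [div_lt_one (by linarith)]
    linarith
  have := Real.rpow_lt_rpow_of_exponent_lt h2 h5
  rwa [Real.rpow_one] at this

open Classical in
/-- the general theorem for the form `m` -/
lemma narrow (θ : ℝ) (hθ : 0 < θ) (r : ℕ) (hr : 2 ≤ r) (l : ℕ) (hl : 2 ≤ l) (ε : ℝ) (hε : 0 < ε) :
    ∃ B : ℕ, ∀ᶠ X : ℕ in atTop, ∀ Y : ℕ, (X : ℝ) ^ θ ≤ Y → Y ≤ X →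
      ∀ A : Set ℕ, A ⊆ RoughAt r →
        (((Ioc X (X + Y)).filter (fun m : ℕ =>
          m ∈ A ∧ ¬ InProgression A l (Real.log X ^ B) X (X + Y) m)).card : ℝ) ≤
        ε * (Y / Real.log X) := by
  obtain ⟨B, hB⟩ := Pool.Agent.R463.NL.narrow_lin one_pos (fun _ : Fin 1 => 1) (fun _ => 0) (fun _ => one_pos)
    (fun _ => by rw [Nat.cast_one]; exact isCoprime_one_left) (fun i j _ _ => Subsingleton.elim i j) (fun p hp => ⟨1, fun _ h => by
      have h1 : (p : ℤ) ∣ ((1 : ℕ) : ℤ) := by simpa using h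
      exact hp.one_lt.ne' (Nat.dvd_one.1 (Int.natCast_dvd_natCast.1 h1))⟩) θ hθ r hr l hl ε hε
  refine ⟨B, ?_⟩
  filter_upwards [hB] with X hX Y hXY hYX A hA
  have h := hX Y hXY hYX A (fun m hm => by
    intro i p hp hd
    refine hA hm p hp ?_
    have h1 : (p : ℤ) ∣ (m : ℤ) := by simpa using hd
    exact_mod_cast h1)
  rw [pow_one] at h
  exact h

/-- `π(x, H)`, the number of the primes in `(x, x + H]` -/
noncomputable def primesIn (x : ℕ) (H : ℝ) : ℕ := ((Ioc x ⌊(x : ℝ) + H⌋₊).filter Nat.Prime).card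

/-- the ratio `π(x, H) log x / H` of the problem -/
noncomputable def ratio (x : ℕ) (H : ℝ) : ℝ := primesIn x H * Real.log x / H

/-- the primes `p` for which the ratio of the interval `(p, p + H(p)]` is an element of `S` -/
def Where (H : ℕ → ℝ) (S : Set ℝ) : Set ℕ := {p | p.Prime ∧ ratio p (H p) ∈ S}

open Classical in
/-- **Deviations in short intervals along narrow progressions.** Let `θ > 0`, `l ≥ 2` and `ε > 0`. There is `B`
such that for all large `X` and all `X ^ θ ≤ Y ≤ X`: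
(1) for EVERY function `H` and EVERY set `S` of reals (for instance the complement of `(1 - δ, 1 + δ)`), all but
at most `ε Y / log X` of the primes `p` in `(X, X + Y]` with `π(p, H(p)) log p / H(p)` in `S` are terms of
`l`-term arithmetic progressions, with difference at most `(log X) ^ B`, of primes `p'` in `(X, X + Y]` with
`π(p', H(p')) log p' / H(p')` in `S`;
(2) more generally, for EVERY set `A` of primes, all but at most `ε Y / log X` of the elements of `A` in
`(X, X + Y]` are terms of `l`-term arithmetic progressions, contained in the part of `A` in `(X, X + Y]`, with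
difference at most `(log X) ^ B`;
(3) in particular, if `(X, X + Y]` contains more than `ε Y / log X` primes, it contains `l`-term arithmetic
progressions of primes with difference at most `(log X) ^ B`. -/
theorem result (θ : ℝ) (hθ : 0 < θ) (l : ℕ) (hl : 2 ≤ l) (ε : ℝ) (hε : 0 < ε) :
    ∃ B : ℕ, ∀ᶠ X : ℕ in atTop, ∀ Y : ℕ, (X : ℝ) ^ θ ≤ Y → Y ≤ X →
      (∀ (H : ℕ → ℝ) (S : Set ℝ), (((Ioc X (X + Y)).filter (fun p : ℕ =>
          p ∈ Where H S ∧ ¬ InProgression (Where H S) l (Real.log X ^ B) X (X + Y) p)).card : ℝ) ≤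
        ε * (Y / Real.log X)) ∧
      (∀ A : Set ℕ, (∀ p ∈ A, p.Prime) →
        (((Ioc X (X + Y)).filter (fun p : ℕ =>
          p ∈ A ∧ ¬ InProgression A l (Real.log X ^ B) X (X + Y) p)).card : ℝ) ≤
        ε * (Y / Real.log X)) ∧
      (ε * (Y / Real.log X) < primesIn X Y → ∃ u d : ℕ, 1 ≤ d ∧ (d : ℝ) ≤ Real.log X ^ B ∧
        ∀ i < l, (u + i * d).Prime ∧ X < u + i * d ∧ u + i * d ≤ X + Y) := by
  obtain ⟨B, hB⟩ := narrow θ hθ 2 le_rfl l hl ε hε
  refine ⟨B, ?_⟩
  filter_upwards [hB] with X hX Y hXY hYX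
  have key : ∀ A : Set ℕ, (∀ p ∈ A, p.Prime) →
        (((Ioc X (X + Y)).filter (fun p : ℕ =>
          p ∈ A ∧ ¬ InProgression A l (Real.log X ^ B) X (X + Y) p)).card : ℝ) ≤
        ε * (Y / Real.log X) :=
    fun A hA => hX Y hXY hYX A (fun m hm => prime_mem 2 le_rfl m (hA m hm))
  refine ⟨fun H S => key _ (fun p hp => hp.1), key, fun hlt => ?_⟩
  by_contra hcon
  obtain ⟨A, hA⟩ : ∃ A : Set ℕ, ∀ p, p ∈ A ↔ p.Prime := ⟨{p | p.Prime}, fun p => Iff.rfl⟩
  have h1 := key A (fun p hp => (hA p).1 hp)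
  have h2 : (((Ioc X (X + Y)).filter Nat.Prime).card : ℝ) ≤ ε * (Y / Real.log X) := by
    refine le_trans (Nat.cast_le.2 (card_le_card fun p hp => ?_)) h1
    obtain ⟨hp1, hp2⟩ := mem_filter.1 hp
    refine mem_filter.2 ⟨hp1, (hA p).2 hp2, fun ⟨u, d, h3, h4, h5, _⟩ => hcon ⟨u, d, h3, h4, fun i hi => ?_⟩⟩
    exact ⟨(hA _).1 (h5 i hi).1, (h5 i hi).2.1, (h5 i hi).2.2⟩
  have h3 : primesIn X (Y : ℝ) = ((Ioc X (X + Y)).filter Nat.Prime).card := by
    unfold primesIn
    have h4 : ⌊(X : ℝ) + (Y : ℝ)⌋₊ = X + Y := by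
      rw [← Nat.cast_add, Nat.floor_natCast]
    rw [h4]
  rw [h3] at hlt
  linarith

end Pool.Agent.Results.MP_31d0eb_nt.NarrowProgressions
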