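import Mathlib
import Pool.Agent.R528.RM.UniformFinal

set_option autoImplicit false

/-!
# Random models of the primes: the uniform asymptotic law in short intervals

Q1 asks whether `π(x, H) ∼ H / log x` uniformly in `x^ε ≤ H ≤ x`.  The theorem below settles the
analogous question, with the exact range of uniformity and the exact size of the error, in EVERY
random model of the primes in which the integers are decided one after the other and the conditional
probability of choosing `n + 1` given the past is asymptotic to `1 / log n` (no independence is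
assumed; Cramér's model and the Hawkins random sieve are examples): almost surely, for `lam > 0`,

  `limsup_{x → ∞} sup_{lam (log x)² ≤ H ≤ x} | π(x, H) log x / H - 1 | = a - 1`,

where `a > 1` is the solution of `lam (a log a - a + 1) = 1`.  As `a → 1` for `lam → ∞`, the
asymptotic formula holds uniformly as soon as `H / (log x)² → ∞`, and the error at the boundary
`H ≥ lam (log x)²` is given exactly.
-/

open MeasureTheory Filter
open scoped Topology

namespace Pool.Agent.Results.MP_31d0eb_nt.UniformLawRandomModels

/-- the number of members of `S` in the interval `(x, x + H]` -/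
noncomputable def count (S : Set ℕ) (x H : ℝ) : ℕ := Set.ncard {a : ℕ | a ∈ S ∧ x < a ∧ (a : ℝ) ≤ x + H}

end Pool.Agent.Results.MP_31d0eb_nt.UniformLawRandomModels

open Pool.Agent.Results.MP_31d0eb_nt.UniformLawRandomModels

/-- Let `A n` be the event that `n` belongs to a random set adapted to a filtration `ℱ`, such that
almost surely the conditional probability of `A (n + 1)` given `ℱ n`, times `log n`, tends to `1`.
Let `lam > 0`, and let `a > 1` satisfy `lam (a log a - a + 1) = 1`.  Then almost surely the upper
limit, as the real number `x` tends to infinity, of the supremum of `|count x H * log x / H - 1|`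
over all real `H` with `lam (log x)² ≤ H ≤ x` is exactly `a - 1`. -/
theorem Pool.Agent.Results.MP_31d0eb_nt.UniformLawRandomModels.result
    {Ω : Type} [mΩ : MeasurableSpace Ω] (μ : Measure Ω) [IsProbabilityMeasure μ]
    (ℱ : Filtration ℕ mΩ) (A : ℕ → Set Ω) (hA : ∀ n, MeasurableSet[ℱ n] (A n))
    (hd : ∀ᵐ ω ∂μ, Tendsto (fun n : ℕ =>
      (μ[(A (n + 1)).indicator (fun _ => (1 : ℝ)) | ℱ n]) ω * Real.log n) atTop (𝓝 1))
    (lam a : ℝ) (hlam : 0 < lam) (ha : 1 < a) (hIa : lam * (a * Real.log a - a + 1) = 1) :
    ∀ᵐ ω ∂μ, ∀ ε : ℝ, 0 < ε →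
      (∀ᶠ x : ℝ in atTop, ∀ H : ℝ, lam * Real.log x ^ 2 ≤ H → H ≤ x →
        |(count {k | ω ∈ A k} x H : ℝ) * Real.log x / H - 1| < a - 1 + ε) ∧
      (∃ᶠ x : ℝ in atTop, ∃ H : ℝ, lam * Real.log x ^ 2 ≤ H ∧ H ≤ x ∧
        a - 1 - ε < |(count {k | ω ∈ A k} x H : ℝ) * Real.log x / H - 1|) :=
  Pool.Agent.R528.RM.uni_law hA hd hlam ha hIa
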